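import Pool.Agent.Helper13.TW.StA

set_option autoImplicit false

namespace Pool.Agent.Helper6.TW

open Set Topology Pool.Agent.Helper13.TR Pool.Agent.Helper13.TW

private theorem spl_symm (hARB : StARB) {S : Type} [TopologicalSpace S] [T2Space S] {J : Set S}
    {p q : S} {D₁ D₂ : Set S} (h : Spl J p q D₁ D₂) : Spl J q p D₁ D₂ := by
  obtain ⟨h1, h2, h3, h4⟩ := h
  exact ⟨(hARB.1 S D₁ p q h1).1, (hARB.1 S D₂ p q h2).1, by rw [h3, pair_comm], h4⟩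

/-- three consecutive arcs -/
private theorem three (hARB : StARB) {S : Type} [TopologicalSpace S] [T2Space S] {J : Set S}
    {a b x y : S} {D₁ D₂ X Y Z : Set S} (h : Spl J a b D₁ D₂)
    (hX : IsArc X a x) (hY : IsArc Y x y) (hZ : IsArc Z y b) (hU : X ∪ Y ∪ Z = D₂)
    (hXY : X ∩ Y = {x}) (hYZ : Y ∩ Z = {y}) (hXZ : X ∩ Z = ∅) (hxa : x ≠ a) (hyb : y ≠ b) :
    Spl J x y Y (X ∪ D₁ ∪ Z) := by
  obtain ⟨hD1, hD2, hI, hJ⟩ := h
  have hARB3 := hARB.2.2.1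
  obtain ⟨hXs, -, haX, hxX, -⟩ := hARB.1 S X a x hX
  obtain ⟨hYs, -, hxY, hyY, hxy, -⟩ := hARB.1 S Y x y hY
  obtain ⟨hZs, -, hyZ, hbZ, -⟩ := hARB.1 S Z y b hZ
  obtain ⟨hD1s, -, haD1, hbD1, hab, -⟩ := hARB.1 S D₁ a b hD1
  have mXY : ∀ z, z ∈ X → z ∈ Y → z = x := fun z h1 h2 => by
    have : z ∈ X ∩ Y := ⟨h1, h2⟩
    rw [hXY] at this; exact this
  have mYZ : ∀ z, z ∈ Y → z ∈ Z → z = y := fun z h1 h2 => by
    have : z ∈ Y ∩ Z := ⟨h1, h2⟩
    rw [hYZ] at this; exact this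
  have mXZ : ∀ z, z ∈ X → z ∈ Z → False := fun z h1 h2 => by
    have : z ∈ X ∩ Z := ⟨h1, h2⟩
    rw [hXZ] at this; exact this
  have mD : ∀ z, z ∈ D₁ → z ∈ D₂ → z = a ∨ z = b := fun z h1 h2 => by
    have : z ∈ D₁ ∩ D₂ := ⟨h1, h2⟩
    rw [hI] at this; exact this
  have sX : ∀ z, z ∈ X → z ∈ D₂ := fun z h => by rw [← hU]; exact Or.inl (Or.inl h)
  have sY : ∀ z, z ∈ Y → z ∈ D₂ := fun z h => by rw [← hU]; exact Or.inl (Or.inr h)
  have sZ : ∀ z, z ∈ Z → z ∈ D₂ := fun z h => by rw [← hU]; exact Or.inr h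
  have hF1 : X ∩ D₁ = {a} := by
    ext z
    constructor
    · rintro ⟨h1, h2⟩
      rcases mD z h2 (sX z h1) with h | h
      · exact h
      · exact absurd hbZ (fun h3 => mXZ z h1 (h ▸ h3))
    · rintro rfl
      exact ⟨haX, haD1⟩
  have hA1 : IsArc (X ∪ D₁) x b := hARB3 S X D₁ x b a hXs hD1 hF1
  have hF2 : (X ∪ D₁) ∩ Z = {b} := by
    ext z
    constructor
    · rintro ⟨h1 | h1, h2⟩
      · exact (mXZ z h1 h2).elim
      · rcases mD z h1 (sZ z h2) with h | h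
        · exact (mXZ a haX (h ▸ h2)).elim
        · exact h
    · rintro rfl
      exact ⟨Or.inr hbD1, hbZ⟩
  refine ⟨hY, hARB3 S (X ∪ D₁) Z x y b hA1 hZs hF2, ?_, ?_⟩
  · ext z
    constructor
    · rintro ⟨h1, (h2 | h2) | h2⟩
      · exact Or.inl (mXY z h2 h1)
      · exfalso
        rcases mD z h2 (sY z h1) with h | h
        · rw [h] at h1
          exact hxa (mXY a haX h1).symm
        · rw [h] at h1
          exact hyb (mYZ b h1 hbZ).symm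
      · exact Or.inr (mYZ z h1 h2)
    · rintro (rfl | rfl)
      · exact ⟨hxY, Or.inl (Or.inl hxX)⟩
      · exact ⟨hyY, Or.inr hyZ⟩
  · rw [← hJ, ← hU]
    ext z
    simp only [mem_union]
    tauto

private theorem inside (hARB : StARB) {S : Type} [TopologicalSpace S] [T2Space S] {J : Set S}
    {a b p q : S} {D₁ D₂ : Set S} (h : Spl J a b D₁ D₂) (hp : p ∈ D₂) (hq : q ∈ D₂)
    (hpa : p ≠ a) (hpb : p ≠ b) (hqa : q ≠ a) (hqb : q ≠ b) (hpq : p ≠ q) :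
    ∃ E F : Set S, Spl J p q E F ∧ E ⊆ D₂ := by
  obtain ⟨A₁, A₂, hA1, hA2, hU, hI⟩ := hARB.2.1 S D₂ a b p h.2.1 hp hpa hpb
  have hm : ∀ z, z ∈ A₁ → z ∈ A₂ → z = p := fun z h1 h2 => by
    have : z ∈ A₁ ∩ A₂ := ⟨h1, h2⟩
    rw [hI] at this; exact this
  have hbA : b ∈ A₂ := (hARB.1 S A₂ p b hA2).2.2.2.1
  have haA : a ∈ A₁ := (hARB.1 S A₁ a p hA1).2.2.1
  have hpA1 : p ∈ A₁ := (hARB.1 S A₁ a p hA1).2.2.2.1
  have hpA2 : p ∈ A₂ := (hARB.1 S A₂ p b hA2).2.2.1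
  rw [← hU] at hq
  rcases hq with hq | hq
  · obtain ⟨C₁, C₂, hC1, hC2, hUC, hIC⟩ := hARB.2.1 S A₁ a p q hA1 hq hqa hpq.symm
    have hpC2 : p ∈ C₂ := (hARB.1 S C₂ q p hC2).2.2.2.1
    have hpC1 : p ∉ C₁ := fun h1 => by
      have : p ∈ C₁ ∩ C₂ := ⟨h1, hpC2⟩
      rw [hIC] at this; exact hpq this
    have h3 := three hARB (X := C₁) (Y := C₂) (Z := A₂) h hC1 hC2 hA2 (by rw [hUC, hU]) hIC
      (by
        ext z
        constructor
        · rintro ⟨h1, h2⟩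
          exact hm z (by rw [← hUC]; exact Or.inr h1) h2
        · rintro rfl
          exact ⟨hpC2, hpA2⟩)
      (by
        ext z
        constructor
        · rintro ⟨h1, h2⟩
          have := hm z (by rw [← hUC]; exact Or.inl h1) h2
          rw [this] at h1
          exact (hpC1 h1).elim
        · rintro h1
          exact h1.elim) hqa hpb
    refine ⟨C₂, _, spl_symm hARB h3, ?_⟩
    rw [← hU, ← hUC]
    exact fun z hz => Or.inl (Or.inr hz)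
  · obtain ⟨B₁, B₂, hB1, hB2, hUB, hIB⟩ := hARB.2.1 S A₂ p b q hA2 hq hpq.symm hqb
    have hpB1 : p ∈ B₁ := (hARB.1 S B₁ p q hB1).2.2.1
    have hpB2 : p ∉ B₂ := fun h1 => by
      have : p ∈ B₁ ∩ B₂ := ⟨hpB1, h1⟩
      rw [hIB] at this; exact hpq this
    have h3 := three hARB (X := A₁) (Y := B₁) (Z := B₂) h hA1 hB1 hB2
      (by rw [union_assoc, hUB, hU])
      (by
        ext z
        constructor
        · rintro ⟨h1, h2⟩
          exact hm z h1 (by rw [← hUB]; exact Or.inl h2)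
        · rintro rfl
          exact ⟨hpA1, hpB1⟩) hIB
      (by
        ext z
        constructor
        · rintro ⟨h1, h2⟩
          have := hm z h1 (by rw [← hUB]; exact Or.inr h2)
          rw [this] at h2
          exact (hpB2 h2).elim
        · rintro h1
          exact h1.elim) hpa hqb
    refine ⟨B₁, _, h3, ?_⟩
    rw [← hU, ← hUB]
    exact fun z hz => Or.inr (Or.inl hz)

theorem hUAR (hARB : StARB) (hSCL : StSCL) : StUAR := by
  intro S _ J hJ ε hε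
  have hS := hSCL S J hJ
  have h3 : ∀ c : J, ∃ (a b : S) (D₁ D₂ : Set S), Spl J a b D₁ D₂ ∧
      D₂ ⊆ Metric.ball (c : S) (ε / 4) ∧ (c : S) ∈ D₂ ∧ (c : S) ≠ a ∧ (c : S) ≠ b := fun c =>
    hS.2.2.1 c.1 c.2 (Metric.ball (c : S) (ε / 4)) Metric.isOpen_ball
      (Metric.mem_ball_self (by linarith))
  choose a b D₁ D₂ hSp hB hc hca hcb using h3
  obtain ⟨δ, hδ, hL⟩ := lebesgue_number_lemma_of_metric (c := fun c : J => (D₁ c)ᶜ) hS.2.2.2.2.1
    (fun c => (hARB.1 S (D₁ c) (a c) (b c) (hSp c).1).2.1.isClosed.isOpen_compl) (by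
      intro x hx
      refine mem_iUnion.2 ⟨⟨x, hx⟩, fun h1 => ?_⟩
      have h2 : x ∈ D₁ ⟨x, hx⟩ ∩ D₂ ⟨x, hx⟩ := ⟨h1, hc ⟨x, hx⟩⟩
      rw [(hSp ⟨x, hx⟩).2.2.1] at h2
      rcases h2 with h2 | h2
      · exact hca ⟨x, hx⟩ h2
      · exact hcb ⟨x, hx⟩ h2)
  refine ⟨δ, hδ, fun p hp q hq hpq hd => ?_⟩
  obtain ⟨c, hcc⟩ := hL p hp
  have hp1 : p ∉ D₁ c := hcc (Metric.mem_ball_self hδ)
  have hq1 : q ∉ D₁ c := hcc (by rw [Metric.mem_ball, dist_comm]; exact hd)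
  obtain ⟨-, -, haD, hbD, -⟩ := hARB.1 S (D₁ c) (a c) (b c) (hSp c).1
  have hU := (hSp c).2.2.2
  have hp2 : p ∈ D₂ c := by
    rw [← hU] at hp
    exact hp.resolve_left hp1
  have hq2 : q ∈ D₂ c := by
    rw [← hU] at hq
    exact hq.resolve_left hq1
  have ne : ∀ {x y : S}, x ∉ D₁ c → y ∈ D₁ c → x ≠ y := fun h1 h2 h => h1 (h ▸ h2)
  obtain ⟨E, F, hEF, hE⟩ := inside hARB (hSp c) hp2 hq2 (ne hp1 haD) (ne hp1 hbD) (ne hq1 haD)
    (ne hq1 hbD) hpq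
  refine ⟨E, F, hEF, ?_⟩
  have h4 : Metric.diam E ≤ Metric.diam (Metric.ball (c : S) (ε / 4)) :=
    Metric.diam_mono (hE.trans (hB c)) Metric.isBounded_ball
  have h5 : Metric.diam (Metric.ball (c : S) (ε / 4)) ≤ 2 * (ε / 4) :=
    Metric.diam_ball (by linarith)
  linarith

end Pool.Agent.Helper6.TW
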