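import Pool.Agent.Helper9.TW.St

/-!
# Project TW, module D2: deterministic recursion, upper bound
-/

set_option autoImplicit false

namespace Pool.Agent.Helper6.TW

open Pool.Agent.Helper9.TW

theorem gm_le (j : ℕ) (hj : 1 ≤ j) : gm j ≤ 1 / j := by
  have h0 : (0 : ℝ) < j := by exact_mod_cast hj
  unfold gm
  have := Real.log_le_sub_one_of_pos (show (0 : ℝ) < ((j : ℝ) + 1) / j by positivity)
  refine this.trans (le_of_eq ?_)
  field_simp
  ring

theorem le_gm (j : ℕ) (hj : 1 ≤ j) : 1 / ((j : ℝ) + 1) ≤ gm j := by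
  have h0 : (0 : ℝ) < j := by exact_mod_cast hj
  unfold gm
  have := Real.one_sub_inv_le_log_of_pos (show (0 : ℝ) < ((j : ℝ) + 1) / j by positivity)
  refine le_trans (le_of_eq ?_) this
  field_simp
  ring

/-- the chain of applications of the rule `us` -/
private theorem chain (j0 Nm N : ℕ) (U L : ℕ → ℕ → ℝ → Prop) (hAx : Ax j0 Nm U L) (hNm : N ≤ Nm)
    (j1 : ℕ) (hj1 : j0 ≤ j1) (h2 : 2 ≤ j1) (l' a : ℝ) (hl : 0 ≤ l')
    (hst : ∃ μ : ℝ, U N j1 μ ∧ μ ≤ a) (j : ℕ) (hj : j1 ≤ j) : 3 * j ≤ N →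
    (∀ j' : ℕ, j1 ≤ j' → j' < j → ∃ μ' : ℝ, L (N - (j' + 1)) j' μ' ∧ (j0 : ℝ) / j' * l' ≤ μ') →
    ∃ μ : ℝ, U N j μ ∧ μ ≤ a - j0 * l' * (1 / j1 - 1 / j) +
      (1 / ((j1 : ℝ) - 1) - 1 / ((j : ℝ) - 1)) / 2 := by
  induction j, hj using Nat.le_induction with
  | base =>
    intro _ _
    obtain ⟨μ, h3, h4⟩ := hst
    exact ⟨μ, h3, by simpa using h4⟩
  | succ j hj ih =>
    intro h3 hL
    obtain ⟨μ, h4, h5⟩ := ih (by omega) (fun j' h6 h7 => hL j' h6 (by omega))
    obtain ⟨μ', h6, h7⟩ := hL j hj (by omega)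
    refine ⟨_, hAx.us N j μ μ' (by omega) h3 hNm h4 h6, ?_⟩
    have hjR : (2 : ℝ) ≤ j := by exact_mod_cast h2.trans hj
    have hg1 := gm_le j (by omega)
    have hg2 := le_gm j (by omega)
    have hg0 : 0 ≤ gm j := le_trans (by positivity) hg2
    have hm0 : 0 ≤ (j0 : ℝ) / j * l' := by positivity
    have e1 : (j0 : ℝ) * l' * (1 / j - 1 / ((j : ℝ) + 1)) ≤ gm j * μ' := by
      calc (j0 : ℝ) * l' * (1 / j - 1 / ((j : ℝ) + 1)) = 1 / ((j : ℝ) + 1) * ((j0 : ℝ) / j * l') := by
            field_simp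
            ring
        _ ≤ gm j * ((j0 : ℝ) / j * l') := mul_le_mul_of_nonneg_right hg2 hm0
        _ ≤ gm j * μ' := mul_le_mul_of_nonneg_left h7 hg0
    have e2 : gm j ^ 2 / 2 ≤ (1 / ((j : ℝ) - 1) - 1 / j) / 2 := by
      have h8 : gm j ^ 2 ≤ (1 / (j : ℝ)) ^ 2 := pow_le_pow_left₀ hg0 hg1 2
      have h9 : (1 / (j : ℝ)) ^ 2 ≤ 1 / ((j : ℝ) - 1) - 1 / j := by
        have h10 : (0 : ℝ) < (j : ℝ) - 1 := by linarith
        have h11 : 1 / ((j : ℝ) - 1) - 1 / j = 1 / (((j : ℝ) - 1) * j) := by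
          have : (j : ℝ) ≠ 0 := by linarith
          have : (j : ℝ) - 1 ≠ 0 := h10.ne'
          field_simp
          ring
        rw [h11, div_pow, one_pow]
        apply one_div_le_one_div_of_le (by positivity)
        nlinarith
      linarith
    push_cast
    have e3 : (j : ℝ) + 1 - 1 = j := by ring
    rw [e3]
    have e4 : (j0 : ℝ) * l' * (1 / j1 - 1 / ((j : ℝ) + 1)) = (j0 : ℝ) * l' * (1 / j1 - 1 / j) +
        (j0 : ℝ) * l' * (1 / j - 1 / ((j : ℝ) + 1)) := by ring
    rw [e4]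
    linarith

/-- the final computation -/
private theorem fin_D2 (S i j0 j1 j c l l' η M : ℝ) (hi : 3 ≤ i) (hj0 : 0 < j0) (hj01 : j0 ≤ j1)
    (hj1j : j1 ≤ j) (hS : j ≤ S * j0) (hMi : i * j ≤ M) (hM : M ≤ (i + 1) * (j1 + 1))
    (hc : 1 ≤ c) (hl0 : 0 ≤ l) (hl1 : l ≤ 1) (hl' : l - η / 16 ≤ l') (hl'l : l' ≤ l) (hη : 0 < η)
    (h1 : 2 + 4 * c / η + 2 * S / η ≤ j0) :
    j0 / j1 * (c + η / 16) - j0 * l' * (1 / j1 - 1 / j) + (1 / (j1 - 1) - 1 / (j - 1)) / 2 ≤
      j0 / j * (((i + 1) * c - l) / i + η) := by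
  have j10 : 0 < j1 := by linarith
  have j00 : 0 < j := by linarith
  have hS0 : 0 < S := by
    by_contra hcon
    have : S * j0 ≤ 0 := mul_nonpos_of_nonpos_of_nonneg (not_lt.1 hcon) hj0.le
    linarith
  have hcη : 0 < 4 * c / η := by positivity
  have hSη : 0 < 2 * S / η := by positivity
  -- the last term
  have hlast : (1 / (j1 - 1) - 1 / (j - 1)) / 2 ≤ j0 / j * (η / 4) := by
    have h2 : 0 < j1 - 1 := by linarith
    have h3 : 0 < j - 1 := by linarith
    have h4 : 0 ≤ 1 / (j - 1) := by positivity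
    have h5 : 1 / (j1 - 1) ≤ η / (2 * S) := by
      rw [div_le_div_iff₀ h2 (by positivity)]
      have h6 : 2 * S / η ≤ j1 - 1 := by linarith
      rw [div_le_iff₀ hη] at h6
      linarith
    have h7 : 1 / S ≤ j0 / j := by
      rw [div_le_div_iff₀ hS0 j00]
      linarith
    have h8 : η / (2 * S) / 2 = 1 / S * (η / 4) := by
      field_simp
      ring
    have h9 := mul_le_mul_of_nonneg_right h7 (show 0 ≤ η / 4 by positivity)
    linarith
  -- the ratio
  have hrho : j / j1 ≤ (i + 1) / i * (1 + 1 / j1) := by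
    rw [div_le_iff₀ j10]
    have h2 : (i + 1) / i * (1 + 1 / j1) * j1 = (i + 1) * (j1 + 1) / i := by
      field_simp
    rw [h2, le_div_iff₀ (by linarith)]
    linarith
  have hj1 : 4 * c / η ≤ j1 := by linarith
  have hcj : c / j1 ≤ η / 4 := by
    rw [div_le_iff₀ hη] at hj1
    rw [div_le_div_iff₀ j10 (by norm_num)]
    linarith
  have e1 : j0 / j1 * (c + η / 16) - j0 * l' * (1 / j1 - 1 / j) =
      j0 / j * (j / j1 * (c + η / 16 - l') + l') := by
    field_simp
    ring
  have hpos : 0 ≤ c + η / 16 - l' := by linarith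
  have h10 : 1 / j1 ≤ 1 / 2 := by
    apply one_div_le_one_div_of_le (by norm_num)
    linarith
  have hi1 : (i + 1) / i ≤ 4 / 3 := by
    rw [div_le_div_iff₀ (by linarith) (by norm_num)]
    linarith
  have hi0 : 0 < (i + 1) / i := by positivity
  have e2 : j / j1 * (c + η / 16 - l') + l' ≤ ((i + 1) * c - l) / i + η * (3 / 4) := by
    have h2 := mul_le_mul_of_nonneg_right hrho hpos
    have h3 : ((i + 1) * c - l) / i = (i + 1) / i * (c - l) + l := by
      field_simp
      ring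
    have h4 : (c + η / 16 - l') * (1 + 1 / j1) ≤ (c - l) + η / 2 := by
      have h5 : c + η / 16 - l' ≤ c - l + η / 8 := by linarith
      have h6 := mul_le_mul_of_nonneg_right h5 (show 0 ≤ 1 + 1 / j1 by positivity)
      have h7 : (c - l + η / 8) * (1 + 1 / j1) = (c - l) + η / 8 + (c - l) * (1 / j1) +
        η / 8 * (1 / j1) := by ring
      have h8 : (c - l) * (1 / j1) ≤ c * (1 / j1) :=
        mul_le_mul_of_nonneg_right (by linarith) (by positivity)
      have h9 : c * (1 / j1) = c / j1 := by ring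
      have h11 : η / 8 * (1 / j1) ≤ η / 8 * (1 / 2) :=
        mul_le_mul_of_nonneg_left h10 (by positivity)
      linarith
    have h5 := mul_le_mul_of_nonneg_left h4 hi0.le
    have h6 : (i + 1) / i * (η / 2) ≤ 4 / 3 * (η / 2) :=
      mul_le_mul_of_nonneg_right hi1 (by positivity)
    rw [h3]
    have h7 : (i + 1) / i * (1 + 1 / j1) * (c + η / 16 - l') =
        (i + 1) / i * ((c + η / 16 - l') * (1 + 1 / j1)) := by ring
    have h8 : (i + 1) / i * (c - l + η / 2) = (i + 1) / i * (c - l) + (i + 1) / i * (η / 2) := by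
      ring
    linarith
  rw [e1]
  have hjj : 0 ≤ j0 / j := by positivity
  have h2 := mul_le_mul_of_nonneg_left e2 hjj
  have h3 : j0 / j * (((i + 1) * c - l) / i + η) =
      j0 / j * (((i + 1) * c - l) / i + η * (3 / 4)) + j0 / j * (η / 4) := by ring
  rw [h3]
  linarith

theorem hD2 : StD2 := by
  intro S K i c l hK hi hc hl0 hl1 hU hL η hη
  obtain ⟨js1, h1⟩ := hU (η / 16) (by positivity)
  obtain ⟨js2, h2⟩ := hL (η / 16) (by positivity)
  obtain ⟨js3, h3⟩ := exists_nat_ge (2 + 4 * c / η + 2 * S / η)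
  refine ⟨max (max js1 js2) js3, ?_⟩
  intro j0 hj0 U L hAx j N hj hN hs
  have hj01 : js1 ≤ j0 := le_trans (le_trans (le_max_left _ _) (le_max_left _ _)) hj0
  have hj02 : js2 ≤ j0 := le_trans (le_trans (le_max_right _ _) (le_max_left _ _)) hj0
  have hj03 : js3 ≤ j0 := le_trans (le_max_right _ _) hj0
  have hbig : 2 + 4 * c / η + 2 * S / η ≤ (j0 : ℝ) := h3.trans (by exact_mod_cast hj03)
  have hj0R : (2 : ℝ) ≤ j0 := by
    have : 0 ≤ 4 * c / η := by positivity
    have : 0 ≤ 2 * (S : ℝ) / η := by positivity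
    linarith
  have hj02' : 2 ≤ j0 := by exact_mod_cast hj0R
  have hKR : (1 : ℝ) ≤ K := by exact_mod_cast hK
  have hiR : (3 : ℝ) * K ≤ i := by exact_mod_cast hi
  have hi3 : (3 : ℝ) ≤ i := by linarith
  have hjR : (j0 : ℝ) ≤ j := by exact_mod_cast hj
  have hsK : (i : ℝ) * j ≤ K * N := by
    rw [div_mul_eq_mul_div, div_le_iff₀ (by linarith)] at hs
    linarith
  have hsN : i * j ≤ K * N := by exact_mod_cast hsK
  by_cases hcase : (i + 1) * j ≤ K * N
  · obtain ⟨μ, h4, h5⟩ := h1 j0 hj01 U L hAx j N hj hN (by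
      have h6 : ((i : ℝ) + 1) * j ≤ K * N := by exact_mod_cast hcase
      rw [div_mul_eq_mul_div, div_le_iff₀ (by linarith)]
      linarith)
    refine ⟨μ, h4, h5.trans ?_⟩
    have h6 : c ≤ (((i : ℝ) + 1) * c - l) / i := by
      rw [le_div_iff₀ (by linarith)]
      linarith
    exact mul_le_mul_of_nonneg_left (by linarith) (by positivity)
  · have hcase' : K * N < (i + 1) * j := not_le.1 hcase
    obtain ⟨j1, hj1⟩ : ∃ j1, j1 = max j0 (K * N / (i + 1)) := ⟨_, rfl⟩
    have hj1j : j1 ≤ j := by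
      rw [hj1]
      refine max_le hj ?_
      have : K * N / (i + 1) < j := by
        rw [Nat.div_lt_iff_lt_mul (by omega)]
        rw [mul_comm j]
        exact hcase'
      omega
    have hj0j1 : j0 ≤ j1 := by rw [hj1]; exact le_max_left _ _
    have hKNj : K * N ≤ (i + 1) * (j1 + 1) := by
      have h4 : K * N / (i + 1) ≤ j1 := by rw [hj1]; exact le_max_right _ _
      have h5 : K * N < (i + 1) * (K * N / (i + 1) + 1) := Nat.lt_mul_div_succ _ (by omega)
      exact h5.le.trans (Nat.mul_le_mul_left _ (by omega))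
    have hstart : ∃ μ : ℝ, U N j1 μ ∧ μ ≤ (j0 : ℝ) / j1 * (c + η / 16) := by
      rcases le_total (K * N / (i + 1)) j0 with h4 | h4
      · have h5 : j1 = j0 := by rw [hj1]; exact max_eq_left h4
        rw [h5]
        refine ⟨1, hAx.u0 N hN, ?_⟩
        rw [div_self (by linarith)]
        linarith
      · have h5 : j1 = K * N / (i + 1) := by rw [hj1]; exact max_eq_right h4
        refine h1 j0 hj01 U L hAx j1 N hj0j1 hN ?_
        have h6 : (i + 1) * j1 ≤ K * N := by rw [h5]; exact Nat.mul_div_le _ _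
        have h7 : ((i : ℝ) + 1) * j1 ≤ K * N := by exact_mod_cast h6
        rw [div_mul_eq_mul_div, div_le_iff₀ (by linarith)]
        linarith
    have h3j : 3 * j ≤ N := by
      have h4 : K * (3 * j) ≤ K * N := by
        calc K * (3 * j) = 3 * K * j := by ring
          _ ≤ i * j := Nat.mul_le_mul_right _ hi
          _ ≤ K * N := hsN
      exact Nat.le_of_mul_le_mul_left h4 (by omega)
    obtain ⟨μ, h4, h5⟩ := chain j0 (S * j0) N U L hAx hN j1 hj0j1 (hj02'.trans hj0j1)
      (max (l - η / 16) 0) _ (le_max_right _ _) hstart j hj1j h3j (by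
        intro j' h6 h7
        have h8 : N - (j' + 1) ≤ S * j0 := (Nat.sub_le _ _).trans hN
        rcases le_total (l - η / 16) 0 with h9 | h9
        · rw [max_eq_right h9]
          exact ⟨0, hAx.lz _ _ (by omega) h8, by simp⟩
        · rw [max_eq_left h9]
          refine h2 j0 hj02 U L hAx j' _ (by omega) h8 ?_
          have h10 : i * (j' + 1) ≤ K * N := (Nat.mul_le_mul_left _ (by omega)).trans hsN
          have h11 : ((N - (j' + 1) : ℕ) : ℝ) = (N : ℝ) - (j' + 1) := by
            rw [Nat.cast_sub (by omega)]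
            push_cast
            ring
          have h12 : (i : ℝ) * (j' + 1) ≤ K * N := by exact_mod_cast h10
          rw [h11, div_mul_eq_mul_div, div_le_iff₀ (by linarith)]
          nlinarith)
    refine ⟨μ, h4, h5.trans ?_⟩
    refine fin_D2 S i j0 j1 j c l _ η (K * N) hi3 (by linarith) (by exact_mod_cast hj0j1)
      (by exact_mod_cast hj1j) ?_ hsK (by exact_mod_cast hKNj) hc hl0 hl1 (le_max_left _ _)
      (max_le (by linarith) hl0) hη hbig
    have h6 : j ≤ S * j0 := by omega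
    exact_mod_cast h6

end Pool.Agent.Helper6.TW
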