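import Pool.Agent.Helper9.TW.St
import Pool.Agent.Helper6.TW.M_D2

/-!
# Project TW, module D3: deterministic recursion, lower bound
-/

set_option autoImplicit false

namespace Pool.Agent.Helper6.TW

open Pool.Agent.Helper9.TW

/-- the chain of applications of the rule `ls` -/
private theorem chain3 (j0 Nm N : ℕ) (U L : ℕ → ℕ → ℝ → Prop) (hAx : Ax j0 Nm U L) (hNm : N ≤ Nm)
    (j1 : ℕ) (hj1 : j0 ≤ j1) (h2 : 2 ≤ j1) (u' a : ℝ) (hu : 0 ≤ u')
    (hst : ∃ μ : ℝ, L N j1 μ ∧ a ≤ μ) (j : ℕ) (hj : j1 ≤ j) : 2 * j ≤ N →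
    (∀ j' : ℕ, j1 ≤ j' → j' < j → ∃ μ' : ℝ, U (N - (j' + 1)) j' μ' ∧ μ' ≤ (j0 : ℝ) / j' * u') →
    ∃ μ : ℝ, L N j μ ∧ a - j0 * u' * (1 / ((j1 : ℝ) - 1) - 1 / ((j : ℝ) - 1)) ≤ μ := by
  induction j, hj using Nat.le_induction with
  | base =>
    intro _ _
    obtain ⟨μ, h3, h4⟩ := hst
    exact ⟨μ, h3, by simpa using h4⟩
  | succ j hj ih =>
    intro h3 hL
    obtain ⟨μ, h4, h5⟩ := ih (by omega) (fun j' h6 h7 => hL j' h6 (by omega))
    obtain ⟨μ', h6, h7⟩ := hL j hj (by omega)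
    refine ⟨_, hAx.ls N j μ μ' (by omega) h3 hNm h4 h6, ?_⟩
    have hjR : (2 : ℝ) ≤ j := by exact_mod_cast h2.trans hj
    have hg1 := gm_le j (by omega)
    have hg2 := le_gm j (by omega)
    have hg0 : 0 ≤ gm j := le_trans (by positivity) hg2
    have hm0 : 0 ≤ (j0 : ℝ) / j * u' := by positivity
    have e1 : gm j * μ' ≤ (j0 : ℝ) * u' * (1 / ((j : ℝ) - 1) - 1 / j) := by
      have h10 : (0 : ℝ) < (j : ℝ) - 1 := by linarith
      have h11 : 1 / ((j : ℝ) - 1) - 1 / j = 1 / (((j : ℝ) - 1) * j) := by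
        have : (j : ℝ) ≠ 0 := by linarith
        have : (j : ℝ) - 1 ≠ 0 := h10.ne'
        field_simp
        ring
      calc gm j * μ' ≤ gm j * ((j0 : ℝ) / j * u') := mul_le_mul_of_nonneg_left h7 hg0
        _ ≤ 1 / (j : ℝ) * ((j0 : ℝ) / j * u') := mul_le_mul_of_nonneg_right hg1 hm0
        _ = (j0 : ℝ) * u' * (1 / ((j : ℝ) * j)) := by field_simp
        _ ≤ (j0 : ℝ) * u' * (1 / (((j : ℝ) - 1) * j)) := by
            apply mul_le_mul_of_nonneg_left _ (by positivity)
            apply one_div_le_one_div_of_le (by positivity)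
            nlinarith
        _ = _ := by rw [h11]
    push_cast
    have e3 : (j : ℝ) + 1 - 1 = j := by ring
    rw [e3]
    have e4 : (j0 : ℝ) * u' * (1 / ((j1 : ℝ) - 1) - 1 / (j : ℝ)) =
        (j0 : ℝ) * u' * (1 / ((j1 : ℝ) - 1) - 1 / ((j : ℝ) - 1)) +
        (j0 : ℝ) * u' * (1 / ((j : ℝ) - 1) - 1 / j) := by ring
    rw [e4]
    linarith

/-- the final computation -/
private theorem fin_D3 (i j0 j1 j c u η M : ℝ) (hi : 2 ≤ i) (hj0 : 0 < j0) (hj01 : j0 ≤ j1)
    (hj1j : j1 ≤ j) (hMi : i * j ≤ M) (hM : M ≤ (i + 1) * (j1 + 1))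
    (hc : c ≤ 1) (hu : 1 ≤ u) (hη : 0 < η) (h1 : 2 + 8 * (u - c) / η + 16 * (u + η) / η ≤ j0) :
    j0 / j * (((i + 1) * c - u) / i - η) ≤
      j0 / j1 * (c - η / 16) - j0 * (u + η / 16) * (1 / (j1 - 1) - 1 / (j - 1)) := by
  have j10 : 0 < j1 := by linarith
  have j00 : 0 < j := by linarith
  have hcη : 0 ≤ 8 * (u - c) / η := by
    apply div_nonneg _ hη.le
    linarith
  have hSη : 0 < 16 * (u + η) / η := by positivity
  have h2 : 0 < j1 - 1 := by linarith
  have h3 : 0 < j - 1 := by linarith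
  -- the ratio
  have hrho : j / j1 ≤ (i + 1) / i * (1 + 1 / j1) := by
    rw [div_le_iff₀ j10]
    have h2 : (i + 1) / i * (1 + 1 / j1) * j1 = (i + 1) * (j1 + 1) / i := by
      field_simp
    rw [h2, le_div_iff₀ (by linarith)]
    linarith
  -- lower bound of the right side
  obtain ⟨e, he⟩ : ∃ e, e = 1 / (j1 - 1) := ⟨_, rfl⟩
  have e0 : 0 < e := by rw [he]; positivity
  have hbase : j0 / j * (j / j1 * (c - η / 16 - (u + η / 16) * (1 + e)) + (u + η / 16)) ≤
      j0 / j1 * (c - η / 16) - j0 * (u + η / 16) * (1 / (j1 - 1) - 1 / (j - 1)) := by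
    have h4 : 1 / j ≤ 1 / (j - 1) := one_div_le_one_div_of_le h3 (by linarith)
    have h5 : 1 / (j1 - 1) = 1 / j1 * (1 + e) := by
      have h9 : j1 - 1 ≠ 0 := h2.ne'
      rw [he]
      field_simp
      ring
    have h6 : j0 / j * (j / j1 * (c - η / 16 - (u + η / 16) * (1 + e)) + (u + η / 16)) =
        j0 / j1 * (c - η / 16) - j0 * (u + η / 16) * (1 / j1 * (1 + e) - 1 / j) := by
      field_simp
      ring
    rw [h6, h5]
    have h7 : 0 ≤ j0 * (u + η / 16) := by positivity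
    have h8 := mul_le_mul_of_nonneg_left h4 h7
    have e5 : j0 * (u + η / 16) * (1 / j1 * (1 + e) - 1 / j) =
        j0 * (u + η / 16) * (1 / j1 * (1 + e)) - j0 * (u + η / 16) * (1 / j) := by ring
    have e6 : j0 * (u + η / 16) * (1 / j1 * (1 + e) - 1 / (j - 1)) =
        j0 * (u + η / 16) * (1 / j1 * (1 + e)) - j0 * (u + η / 16) * (1 / (j - 1)) := by ring
    rw [e5, e6]
    linarith
  refine le_trans ?_ hbase
  apply mul_le_mul_of_nonneg_left _ (by positivity)
  have hneg : c - η / 16 - (u + η / 16) * (1 + e) ≤ 0 := by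
    have : 0 ≤ (u + η / 16) * e := by positivity
    nlinarith
  have h4 := mul_le_mul_of_nonpos_right hrho hneg
  have hi0 : 0 < (i + 1) / i := by positivity
  have hi1 : (i + 1) / i ≤ 3 / 2 := by
    rw [div_le_div_iff₀ (by linarith) (by norm_num)]
    linarith
  have h5 : ((i + 1) * c - u) / i = (i + 1) / i * (c - u) + u := by
    field_simp
    ring
  rw [h5]
  -- error terms
  have h6 : (u - c) * (1 / j1) ≤ η / 8 := by
    have h7 : 8 * (u - c) / η ≤ j1 := by linarith
    rw [div_le_iff₀ hη] at h7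
    rw [mul_one_div, div_le_iff₀ j10]
    linarith
  have h8 : (u + η / 16) * e ≤ η / 16 := by
    have h7 : 16 * (u + η) / η ≤ j1 - 1 := by linarith
    rw [div_le_iff₀ hη] at h7
    rw [he, mul_one_div, div_le_iff₀ h2]
    linarith
  have h10 : 1 / j1 ≤ 1 := by
    rw [div_le_one j10]
    linarith
  have h11 : (c - u) - 1 / 2 * η ≤ (1 + 1 / j1) * (c - η / 16 - (u + η / 16) * (1 + e)) := by
    have h12 : (1 + 1 / j1) * (c - η / 16 - (u + η / 16) * (1 + e)) =
        (c - u) - (u - c) * (1 / j1) - (1 + 1 / j1) * (η / 8 + (u + η / 16) * e) := by ring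
    rw [h12]
    have h13 : (1 + 1 / j1) * (η / 8 + (u + η / 16) * e) ≤ 2 * (η / 8 + η / 16) := by
      apply mul_le_mul (by linarith) (by linarith) (by positivity) (by norm_num)
    linarith
  have h14 := mul_le_mul_of_nonneg_left h11 hi0.le
  have h15 : (i + 1) / i * (1 / 2 * η) ≤ 3 / 2 * (1 / 2 * η) :=
    mul_le_mul_of_nonneg_right hi1 (by positivity)
  have h16 : (i + 1) / i * (1 + 1 / j1) * (c - η / 16 - (u + η / 16) * (1 + e)) =
      (i + 1) / i * ((1 + 1 / j1) * (c - η / 16 - (u + η / 16) * (1 + e))) := by ring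
  have h17 : (i + 1) / i * ((c - u) - 1 / 2 * η) = (i + 1) / i * (c - u) - (i + 1) / i * (1 / 2 * η) := by
    ring
  linarith

theorem hD3 : StD3 := by
  intro S K i c u hK hi hc hu hL hU η hη
  obtain ⟨js1, h1⟩ := hL (η / 16) (by positivity)
  obtain ⟨js2, h2⟩ := hU (η / 16) (by positivity)
  obtain ⟨js3, h3⟩ := exists_nat_ge (2 + 8 * (u - c) / η + 16 * (u + η) / η)
  refine ⟨max (max js1 js2) js3, ?_⟩
  intro j0 hj0 U L hAx j N hj hN hs
  have hj01 : js1 ≤ j0 := le_trans (le_trans (le_max_left _ _) (le_max_left _ _)) hj0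
  have hj02 : js2 ≤ j0 := le_trans (le_trans (le_max_right _ _) (le_max_left _ _)) hj0
  have hj03 : js3 ≤ j0 := le_trans (le_max_right _ _) hj0
  have hbig : 2 + 8 * (u - c) / η + 16 * (u + η) / η ≤ (j0 : ℝ) :=
    h3.trans (by exact_mod_cast hj03)
  have hj0R : (2 : ℝ) ≤ j0 := by
    have : 0 ≤ 8 * (u - c) / η := div_nonneg (by linarith) hη.le
    have : 0 ≤ 16 * (u + η) / η := by positivity
    linarith
  have hj02' : 2 ≤ j0 := by exact_mod_cast hj0R
  have hKR : (1 : ℝ) ≤ K := by exact_mod_cast hK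
  have hiR : (2 : ℝ) * K ≤ i := by exact_mod_cast hi
  have hi2 : (2 : ℝ) ≤ i := by linarith
  have hjR : (j0 : ℝ) ≤ j := by exact_mod_cast hj
  have hsK : (i : ℝ) * j ≤ K * N := by
    rw [div_mul_eq_mul_div, div_le_iff₀ (by linarith)] at hs
    linarith
  have hsN : i * j ≤ K * N := by exact_mod_cast hsK
  by_cases hcase : (i + 1) * j ≤ K * N
  · obtain ⟨μ, h4, h5⟩ := h1 j0 hj01 U L hAx j N hj hN (by
      have h6 : ((i : ℝ) + 1) * j ≤ K * N := by exact_mod_cast hcase
      rw [div_mul_eq_mul_div, div_le_iff₀ (by linarith)]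
      linarith)
    refine ⟨μ, h4, le_trans ?_ h5⟩
    have h6 : (((i : ℝ) + 1) * c - u) / i ≤ c := by
      rw [div_le_iff₀ (by linarith)]
      linarith
    exact mul_le_mul_of_nonneg_left (by linarith) (by positivity)
  · have hcase' : K * N < (i + 1) * j := not_le.1 hcase
    obtain ⟨j1, hj1⟩ : ∃ j1, j1 = max j0 (K * N / (i + 1)) := ⟨_, rfl⟩
    have hj1j : j1 ≤ j := by
      rw [hj1]
      refine max_le hj ?_
      have : K * N / (i + 1) < j := by
        rw [Nat.div_lt_iff_lt_mul (by omega)]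
        rw [mul_comm j]
        exact hcase'
      omega
    have hj0j1 : j0 ≤ j1 := by rw [hj1]; exact le_max_left _ _
    have hKNj : K * N ≤ (i + 1) * (j1 + 1) := by
      have h4 : K * N / (i + 1) ≤ j1 := by rw [hj1]; exact le_max_right _ _
      have h5 : K * N < (i + 1) * (K * N / (i + 1) + 1) := Nat.lt_mul_div_succ _ (by omega)
      exact h5.le.trans (Nat.mul_le_mul_left _ (by omega))
    have hstart : ∃ μ : ℝ, L N j1 μ ∧ (j0 : ℝ) / j1 * (c - η / 16) ≤ μ := by
      rcases le_total (K * N / (i + 1)) j0 with h4 | h4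
      · have h5 : j1 = j0 := by rw [hj1]; exact max_eq_left h4
        rw [h5]
        refine ⟨1, hAx.l0 N hN, ?_⟩
        rw [div_self (by linarith)]
        linarith
      · have h5 : j1 = K * N / (i + 1) := by rw [hj1]; exact max_eq_right h4
        refine h1 j0 hj01 U L hAx j1 N hj0j1 hN ?_
        have h6 : (i + 1) * j1 ≤ K * N := by rw [h5]; exact Nat.mul_div_le _ _
        have h7 : ((i : ℝ) + 1) * j1 ≤ K * N := by exact_mod_cast h6
        rw [div_mul_eq_mul_div, div_le_iff₀ (by linarith)]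
        linarith
    have h3j : 2 * j ≤ N := by
      have h4 : K * (2 * j) ≤ K * N := by
        calc K * (2 * j) = 2 * K * j := by ring
          _ ≤ i * j := Nat.mul_le_mul_right _ hi
          _ ≤ K * N := hsN
      exact Nat.le_of_mul_le_mul_left h4 (by omega)
    obtain ⟨μ, h4, h5⟩ := chain3 j0 (S * j0) N U L hAx hN j1 hj0j1 (hj02'.trans hj0j1)
      (u + η / 16) _ (by linarith) hstart j hj1j h3j (by
        intro j' h6 h7
        have h8 : N - (j' + 1) ≤ S * j0 := (Nat.sub_le _ _).trans hN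
        refine h2 j0 hj02 U L hAx j' _ (by omega) h8 ?_
        have h10 : i * (j' + 1) ≤ K * N := (Nat.mul_le_mul_left _ (by omega)).trans hsN
        have h11 : ((N - (j' + 1) : ℕ) : ℝ) = (N : ℝ) - (j' + 1) := by
          rw [Nat.cast_sub (by omega)]
          push_cast
          ring
        have h12 : (i : ℝ) * (j' + 1) ≤ K * N := by exact_mod_cast h10
        rw [h11, div_mul_eq_mul_div, div_le_iff₀ (by linarith)]
        nlinarith)
    refine ⟨μ, h4, le_trans ?_ h5⟩
    exact fin_D3 i j0 j1 j c u η (K * N) hi2 (by linarith) (by exact_mod_cast hj0j1)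
      (by exact_mod_cast hj1j) hsK (by exact_mod_cast hKNj) hc hu hη hbig

end Pool.Agent.Helper6.TW
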